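import Mathlib

set_option autoImplicit false
open Finset

namespace Pool.Agent.Results.MP_bbacab_nt.Ample

lemma exists_primes (B : ℕ) : ∃ S : Finset ℕ, (∀ q ∈ S, q.Prime ∧ B < q) ∧
    (2:ℝ) ≤ ∑ q ∈ S, 1 / (q:ℝ) := by
  by_contra hc
  push Not at hc
  apply not_summable_one_div_on_primes
  have h1 : Summable (Set.indicator {p : ℕ | p.Prime ∧ B < p} (fun n : ℕ => (1:ℝ) / n)) := by
    apply summable_of_sum_le (c := 2)
    · intro n
      exact Set.indicator_nonneg (fun _ _ => by positivity) _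
    · intro u
      classical
      have := hc (u.filter (fun q => q.Prime ∧ B < q)) (fun q hq => (Finset.mem_filter.1 hq).2)
      rw [Finset.sum_filter] at this
      refine le_of_lt (lt_of_eq_of_lt ?_ this)
      apply Finset.sum_congr rfl
      intro x _
      simp [Set.indicator]
  have h2 : Summable (Set.indicator {p : ℕ | p.Prime ∧ p ≤ B} (fun n : ℕ => (1:ℝ) / n)) := by
    apply summable_of_ne_finset_zero (s := Finset.range (B + 1))
    intro b hb
    apply Set.indicator_of_notMem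
    simp only [Finset.mem_range, not_lt] at hb
    rintro ⟨_, h⟩
    omega
  convert h1.add h2 using 1
  funext n
  by_cases hp : n.Prime <;> by_cases hn : n ≤ B <;> simp [Set.indicator, hp, hn, not_lt.2, not_le.1]

def A (S : Finset ℕ) : ℕ → Finset ℕ
  | 0 => {1}
  | m + 1 => Finset.image₂ (· * ·) S (A S m)

lemma A_dvd (S : Finset ℕ) (m : ℕ) : ∀ n ∈ A S m, n ∣ (∏ q ∈ S, q) ^ m := by
  induction m with
  | zero => simp [A]
  | succ m ih =>
    intro n hn
    simp only [A, Finset.mem_image₂] at hn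
    obtain ⟨q, hq, n', hn', rfl⟩ := hn
    rw [pow_succ']
    exact mul_dvd_mul (Finset.dvd_prod_of_mem _ hq) (ih n' hn')

lemma A_card (S : Finset ℕ) (hS : ∀ q ∈ S, q.Prime) (m : ℕ) : (A S m).card ≤ (m + 1) ^ S.card := by
  have hP : (∏ q ∈ S, q) ≠ 0 := Finset.prod_ne_zero_iff.2 fun q hq => (hS q hq).ne_zero
  have h1 : A S m ⊆ ((∏ q ∈ S, q) ^ m).divisors := fun n hn =>
    Nat.mem_divisors.2 ⟨A_dvd S m n hn, pow_ne_zero _ hP⟩
  refine (Finset.card_le_card h1).trans ?_
  rw [Nat.card_divisors (pow_ne_zero _ hP)]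
  rcases Nat.eq_zero_or_pos m with rfl | hm
  · simp
  rw [Nat.primeFactors_pow _ hm.ne', Nat.primeFactors_prod hS]
  rw [← Finset.prod_const]
  apply Finset.prod_le_prod' 
  intro q hq
  rw [Nat.factorization_pow]
  simp only [Finsupp.smul_apply, smul_eq_mul]
  have : (∏ q ∈ S, q).factorization q ≤ 1 := by
    apply Squarefree.natFactorization_le_one
    apply Finset.squarefree_prod_of_pairwise_isCoprime
    · intro x hx y hy hxy
      exact (Nat.coprime_iff_isRelPrime.1 ((Nat.coprime_primes (hS x hx) (hS y hy)).2 hxy))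
    · intro x hx; exact (hS x hx).prime.squarefree
  nlinarith

theorem result (a : ℕ → ℕ) (h1 : a 1 = 1)
    (hrec : ∀ n, 2 ≤ n → a n = 1 + ∑ m ∈ n.properDivisors, a m) :
    ∀ k : ℕ, 1 ≤ k → ∃ n : ℕ, 0 < n ∧ n < a n ∧
      Nat.gcd n (∏ i ∈ Finset.range k, Nat.nth Nat.Prime i) = 1 := by
  classical
  intro k _
  obtain ⟨S, hS, hsum⟩ := exists_primes (Nat.nth Nat.Prime k)
  have hSp : ∀ q ∈ S, q.Prime := fun q hq => (hS q hq).1
  have hP : (∏ q ∈ S, q) ≠ 0 := Finset.prod_ne_zero_iff.2 fun q hq => (hSp q hq).ne_zero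
  have hApos : ∀ m, ∀ n ∈ A S m, 0 < n := fun m n hn =>
    Nat.pos_of_dvd_of_pos (A_dvd S m n hn) (Nat.pos_of_ne_zero (pow_ne_zero _ hP))
  have key : ∀ m, (2:ℝ) ^ m ≤ ∑ n ∈ A S m, (a n : ℝ) / n := by
    intro m
    induction m with
    | zero => simp [A, h1]
    | succ m ih =>
      have e1 : ∑ p ∈ S ×ˢ A S m, (a p.2 : ℝ) / ((p.1 * p.2 : ℕ) : ℝ)
          = (∑ q ∈ S, 1 / (q:ℝ)) * ∑ n ∈ A S m, (a n : ℝ) / n := by
        rw [Finset.sum_product, Finset.sum_mul_sum]
        apply Finset.sum_congr rfl; intro q _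
        apply Finset.sum_congr rfl; intro n _
        push_cast; rw [div_mul_div_comm, one_mul]
      have hmaps : ∀ p ∈ S ×ˢ A S m, p.1 * p.2 ∈ A S (m + 1) := by
        intro p hp
        rw [Finset.mem_product] at hp
        exact Finset.mem_image₂_of_mem hp.1 hp.2
      have e2 : ∑ p ∈ S ×ˢ A S m, (a p.2 : ℝ) / ((p.1 * p.2 : ℕ) : ℝ)
          ≤ ∑ n ∈ A S (m + 1), (a n : ℝ) / n := by
        rw [← Finset.sum_fiberwise_of_maps_to hmaps]
        apply Finset.sum_le_sum
        intro n hn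
        have hnpos := hApos _ n hn
        have hn2 : 2 ≤ n := by
          simp only [A, Finset.mem_image₂] at hn
          obtain ⟨q, hq, n', hn', rfl⟩ := hn
          have := (hSp q hq).two_le
          have := hApos _ n' hn'
          nlinarith
        have e3 : ∑ p ∈ (S ×ˢ A S m) with p.1 * p.2 = n, (a p.2 : ℝ) / ((p.1 * p.2 : ℕ) : ℝ)
            = (∑ p ∈ (S ×ˢ A S m) with p.1 * p.2 = n, (a p.2 : ℝ)) / n := by
          rw [Finset.sum_div]
          apply Finset.sum_congr rfl
          intro p hp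
          rw [(Finset.mem_filter.1 hp).2]
        rw [e3]
        gcongr
        have e4 : ∑ p ∈ (S ×ˢ A S m) with p.1 * p.2 = n, a p.2 ≤ ∑ d ∈ n.properDivisors, a d := by
          rw [← Finset.sum_image (s := (S ×ˢ A S m).filter (fun p => p.1 * p.2 = n))
            (g := Prod.snd) (f := a)]
          · apply Finset.sum_le_sum_of_subset
            intro d hd
            obtain ⟨p, hp, rfl⟩ := Finset.mem_image.1 hd
            rw [Finset.mem_filter, Finset.mem_product] at hp
            rw [Nat.mem_properDivisors]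
            refine ⟨Dvd.intro_left _ hp.2, ?_⟩
            have := (hSp _ hp.1.1).two_le
            have := hApos _ _ hp.1.2
            nlinarith [hp.2]
          · intro p hp p' hp' hpp
            simp only [Finset.coe_filter, Set.mem_setOf_eq, Finset.mem_product] at hp hp'
            have h2 := hApos _ _ hp.1.2
            have : p.1 * p.2 = p'.1 * p.2 := by rw [hp.2, hpp, hp'.2]
            exact Prod.ext (Nat.eq_of_mul_eq_mul_right h2 this) hpp
        have e5 := hrec n hn2
        have : ∑ p ∈ (S ×ˢ A S m) with p.1 * p.2 = n, a p.2 ≤ a n := by omega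
        exact_mod_cast this
      rw [e1] at e2
      have hnn : (0:ℝ) ≤ 2 ^ m := by positivity
      calc (2:ℝ) ^ (m + 1) = 2 * 2 ^ m := by ring
        _ ≤ (∑ q ∈ S, 1 / (q:ℝ)) * ∑ n ∈ A S m, (a n : ℝ) / n :=
          mul_le_mul hsum ih hnn (by linarith)
        _ ≤ _ := e2
  obtain ⟨m, hm⟩ : ∃ m : ℕ, ((m:ℝ) + 1) ^ S.card < 2 ^ m := by
    have hlim := tendsto_pow_const_div_const_pow_of_one_lt S.card (show (1:ℝ) < 2 by norm_num)
    have hev := hlim.eventually (gt_mem_nhds (show (0:ℝ) < 1 / 2 by norm_num))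
    obtain ⟨N, hN⟩ := Filter.eventually_atTop.1 hev
    refine ⟨N, ?_⟩
    have h2 := hN (N + 1) (by omega)
    rw [div_lt_iff₀ (by positivity)] at h2
    push_cast at h2
    rw [pow_succ] at h2
    linarith
  obtain ⟨n, hn, hlt⟩ : ∃ n ∈ A S m, n < a n := by
    by_contra hc
    push Not at hc
    have h2 : ∑ n ∈ A S m, (a n : ℝ) / n ≤ ∑ n ∈ A S m, (1:ℝ) := by
      apply Finset.sum_le_sum
      intro n hn
      have : (0:ℝ) < n := by exact_mod_cast hApos m n hn
      rw [div_le_one this]; exact_mod_cast hc n hn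
    rw [Finset.sum_const, nsmul_eq_mul, mul_one] at h2
    have h3 : ((A S m).card : ℝ) ≤ ((m:ℝ) + 1) ^ S.card := by exact_mod_cast A_card S hSp m
    linarith [key m]
  refine ⟨n, hApos m n hn, hlt, ?_⟩
  apply Nat.Coprime.coprime_dvd_left (A_dvd S m n hn)
  apply Nat.Coprime.pow_left
  apply Nat.Coprime.prod_left
  intro q hq
  apply Nat.Coprime.prod_right
  intro i hi
  rw [Nat.coprime_primes (hSp q hq) (Nat.prime_nth_prime i)]
  have h2 := (hS q hq).2
  have h3 : Nat.nth Nat.Prime i < Nat.nth Nat.Prime k :=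
    Nat.nth_strictMono Nat.infinite_setOf_prime (Finset.mem_range.1 hi)
  omega

end Pool.Agent.Results.MP_bbacab_nt.Ample
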